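import Mathlib

namespace Pool.Agent.Results.MP_92b5af_al.Elem

open Polynomial Matrix Matrix.SpecialLinearGroup

noncomputable section

instance (p : Nat.Primes) : Fact (p : ℕ).Prime := ⟨p.2⟩

def ev (p : Nat.Primes) : ℚ[X] →+* ℚ_[p] := (aeval (((p : ℕ) : ℚ_[p]) + 1)).toRingHom

def R : Subring ℚ[X] := ⨅ p : Nat.Primes, (PadicInt.subring p).comap (ev p)

lemma mem_R {f : ℚ[X]} : f ∈ R ↔ ∀ p, ‖ev p f‖ ≤ 1 := by
  simp [R, Subring.mem_iInf, PadicInt.mem_subring_iff]

def t : R := ⟨X, mem_R.2 fun p => by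
  have := Padic.norm_int_le_one (p := p) ((p : ℕ) + 1)
  simpa [ev] using this⟩

def u (p : Nat.Primes) : R := ⟨C ((p : ℕ) : ℚ)⁻¹ * (1 - X), mem_R.2 fun q => by
  have h : ev q (C ((p : ℕ) : ℚ)⁻¹ * (1 - X)) = -(((p : ℕ) : ℚ_[q])⁻¹ * (q : ℕ)) := by
    simp [ev]
  rw [h, norm_neg]
  by_cases hpq : p = q
  · subst hpq
    rw [inv_mul_cancel₀ (by exact_mod_cast p.2.ne_zero), norm_one]
  · have h1 : ‖((p : ℕ) : ℚ_[q])‖ = 1 := by
      rw [Padic.norm_natCast_eq_one_iff, Nat.coprime_primes q.2 p.2]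
      exact fun h => hpq (Subtype.ext h.symm)
    have h2 := Padic.norm_int_le_one (p := q) (q : ℕ)
    rw [norm_mul, norm_inv, h1, inv_one, one_mul]
    simpa using h2⟩

lemma tu (p : Nat.Primes) : t + (p : ℕ) • u p = 1 := by
  apply Subtype.ext
  have h : ((p : ℕ) : ℚ) ≠ 0 := by exact_mod_cast p.2.ne_zero
  simp only [t, u, nsmul_eq_mul, AddMemClass.coe_add, Subring.coe_mul, SubringClass.coe_natCast,
    OneMemClass.coe_one]
  rw [← mul_assoc, ← C_eq_natCast, ← C_mul, mul_inv_cancel₀ h]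
  simp

def evZ (p : Nat.Primes) : R →+* ℤ_[p] where
  toFun f := ⟨ev p f, mem_R.1 f.2 p⟩
  map_one' := Subtype.ext (by simp)
  map_mul' _ _ := Subtype.ext (by simp)
  map_zero' := Subtype.ext (by simp)
  map_add' _ _ := Subtype.ext (by simp)

lemma sep (f : R) (hf : f ≠ 0) : ∃ (p : Nat.Primes) (n : ℕ),
    PadicInt.toZModPow n (evZ p f) ≠ 0 := by
  have hf' : f.1 ≠ 0 := fun h => hf (Subtype.ext h)
  have : ∃ p : Nat.Primes, f.1.eval (((p : ℕ) : ℚ) + 1) ≠ 0 := by
    by_contra hc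
    push Not at hc
    apply hf'
    apply eq_zero_of_infinite_isRoot
    refine Set.infinite_of_injective_forall_mem
      (f := fun p : Nat.Primes => ((p : ℕ) : ℚ) + 1) ?_ hc
    intro p q h
    apply Subtype.ext
    simpa using h
  obtain ⟨p, hp⟩ := this
  refine ⟨p, ?_⟩
  by_contra hc
  push Not at hc
  have h1 : evZ p f = 0 := PadicInt.ext_of_toZModPow.1 fun n => by rw [hc, map_zero]
  have h2 : ev p f = 0 := congrArg Subtype.val h1
  have h3 : ev p f = algebraMap ℚ ℚ_[p] (f.1.eval (((p : ℕ) : ℚ) + 1)) := by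
    rw [← aeval_algebraMap_apply_eq_algebraMap_eval]
    simp [ev]
  rw [h3] at h2
  exact hp ((map_eq_zero_iff _ (algebraMap ℚ ℚ_[p]).injective).1 h2)

abbrev SL3 := SpecialLinearGroup (Fin 3) R

def gens : Set SL3 := {g | ∃ (i j : Fin 3) (h : i ≠ j) (a : R), X ∣ a.1 ∧ g = transvection h a}

def Γ : Subgroup SL3 := Subgroup.closure gens

def E {i j : Fin 3} (h : i ≠ j) (a : R) (ha : X ∣ a.1) : Γ :=
  ⟨transvection h a, Subgroup.subset_closure ⟨i, j, h, a, ha, rfl⟩⟩

lemma comm_rel {i j k : Fin 3} (hij : i ≠ j) (hik : i ≠ k) (hkj : k ≠ j) (a b : R) :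
    transvection hik a * transvection hkj b =
      transvection hij (a * b) * (transvection hkj b * transvection hik a) := by
  apply Subtype.ext
  simp [transvection_coe, mul_add, add_mul, single_mul_single_of_ne _ _ _ _ hij.symm,
    single_mul_single_of_ne _ _ _ _ hkj.symm]
  abel

def K (m : ℕ) : Subgroup SL3 :=
  (SpecialLinearGroup.map ((Ideal.Quotient.mk (Ideal.span {(X : ℚ[X]) ^ m})).comp R.subtype)).ker

lemma mem_K {m : ℕ} {g : SL3} : g ∈ K m ↔ ∀ i j, X ^ m ∣ ((g.1 - 1) i j).1 := by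
  rw [K, MonoidHom.mem_ker, Matrix.SpecialLinearGroup.ext_iff]
  refine forall_congr' fun i => forall_congr' fun j => ?_
  rw [← Ideal.mem_span_singleton, ← Ideal.Quotient.eq_zero_iff_mem]
  simp only [map_apply_coe, RingHom.mapMatrix_apply, Matrix.map_apply, RingHom.comp_apply,
    Subring.subtype_apply, Matrix.SpecialLinearGroup.coe_one, Matrix.sub_apply, AddSubgroupClass.coe_sub,
    map_sub, sub_eq_zero, Matrix.one_apply]
  split_ifs <;> simp

lemma K_comm (m : ℕ) (hm : 1 ≤ m) (g h : SL3) (hg : g ∈ K m) (hh : h ∈ K m) :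
    g * h * g⁻¹ * h⁻¹ ∈ K (m + 1) := by
  have : g * h * (h * g)⁻¹ ∈ K (m + 1) := by
    rw [K, MonoidHom.mem_ker, map_mul, map_inv, mul_inv_eq_one, Matrix.SpecialLinearGroup.ext_iff]
    intro i j
    rw [mem_K] at hg hh
    have h1 : (g * h).1 - (h * g).1 = (g.1 - 1) * (h.1 - 1) - (h.1 - 1) * (g.1 - 1) := by
      simp only [Matrix.SpecialLinearGroup.coe_mul]; noncomm_ring
    have h2 : ∀ a b : Matrix (Fin 3) (Fin 3) R, (∀ i j, X ^ m ∣ (a i j).1) →
        (∀ i j, X ^ m ∣ (b i j).1) → X ^ (m + 1) ∣ ((a * b) i j).1 := by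
      intro a b ha hb
      rw [Matrix.mul_apply, AddSubmonoidClass.coe_finsetSum]
      refine Finset.dvd_sum fun k _ => ?_
      exact (pow_dvd_pow X (by omega : m + 1 ≤ m + m)).trans
        (by rw [pow_add]; exact mul_dvd_mul (ha i k) (hb k j))
    have h3 : X ^ (m + 1) ∣ (((g * h).1 - (h * g).1) i j).1 := by
      rw [h1, Matrix.sub_apply, AddSubgroupClass.coe_sub]
      exact dvd_sub (h2 _ _ hg hh) (h2 _ _ hh hg)
    rw [← Ideal.mem_span_singleton, Matrix.sub_apply, AddSubgroupClass.coe_sub,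
      ← Ideal.Quotient.eq] at h3
    exact h3
  simpa [mul_assoc] using this

lemma der_le (m : ℕ) : derivedSeries Γ m ≤ (K (m + 1)).comap Γ.subtype := by
  induction m with
  | zero =>
    rintro ⟨g, hg⟩ -
    have : Γ ≤ K 1 := by
      rw [Γ, Subgroup.closure_le]
      rintro _ ⟨i, j, h, a, ha, rfl⟩
      rw [SetLike.mem_coe, mem_K]
      intro k l
      simp only [transvection_coe, add_sub_cancel_left, pow_one, Matrix.single_apply]
      split_ifs
      · exact ha
      · simp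
    exact this hg
  | succ m ih =>
    rw [derivedSeries_succ, Subgroup.commutator_le]
    intro g hg h hh
    exact K_comm (m + 1) (by omega) g h (ih hg) (ih hh)

lemma triv {A : Type} [CommGroup A] [Finite A] (φ : Γ →* A) (g : Γ) : φ g = 1 := by
  have h1 : ∀ {i j : Fin 3} (h : i ≠ j) (a : R) (ha : X ∣ a.1) (ha' : X ∣ (t * a).1),
      φ (E h (t * a) ha') = 1 := by
    intro i j h a ha ha'
    obtain ⟨k, hik, hkj⟩ : ∃ k, i ≠ k ∧ k ≠ j := by revert i j; decide
    have : E hik t (dvd_refl _) * E hkj a ha =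
        E h (t * a) ha' * (E hkj a ha * E hik t (dvd_refl _)) :=
      Subtype.ext (comm_rel h hik hkj t a)
    have := congrArg φ this
    simp only [map_mul] at this
    rw [mul_comm (φ (E hkj a ha))] at this
    exact (mul_eq_right.1 this.symm)
  have hadd : ∀ {i j : Fin 3} (h : i ≠ j) (a b : R) (ha hb hab),
      E h (a + b) hab = E h a ha * E h b hb :=
    fun h a b _ _ _ => Subtype.ext (transvection_add h a b)
  have hsm : ∀ {i j : Fin 3} (h : i ≠ j) (n : ℕ) (a : R) (ha hb),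
      E h (n • a) hb = E h a ha ^ n := by
    intro i j h n a ha
    induction n with
    | zero => intro hb; exact Subtype.ext (by simp [E])
    | succ n ih =>
      intro hb
      have hn : X ∣ (n • a).1 := by simpa using ha.mul_left _
      rw [pow_succ, ← ih hn, ← hadd h _ _ hn ha (by rwa [← succ_nsmul])]
      congr 1
      rw [succ_nsmul]
  have h2 : ∀ {i j : Fin 3} (h : i ≠ j) (n : ℕ), n ≠ 0 → ∀ (a : R) (ha : X ∣ a.1),
      ∃ (b : R) (hb : X ∣ b.1), φ (E h a ha) = φ (E h b hb) ^ n := by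
    intro i j h n
    induction n using induction_on_primes with
    | zero => intro h; exact absurd rfl h
    | one => intro _ a ha; exact ⟨a, ha, by simp⟩
    | prime_mul p n hp ih =>
      intro hn a ha
      obtain ⟨b, hb, e⟩ := ih (by rintro rfl; simp at hn) a ha
      have c1 : X ∣ (u ⟨p, hp⟩ * b).1 := hb.mul_left _
      have c2 : X ∣ (t * b).1 := hb.mul_left _
      have c3 : X ∣ (p • (u ⟨p, hp⟩ * b)).1 := by simpa using c1.mul_left _
      have c4 : t * b + p • (u ⟨p, hp⟩ * b) = b := by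
        rw [← smul_mul_assoc, ← add_mul]
        exact (congrArg (· * b) (tu ⟨p, hp⟩)).trans (one_mul b)
      refine ⟨u ⟨p, hp⟩ * b, c1, ?_⟩
      have c5 : E h b hb = E h (t * b) c2 * E h (u ⟨p, hp⟩ * b) c1 ^ p := by
        rw [← hsm h p _ c1 c3, ← hadd h _ _ c2 c3 (by rwa [c4])]
        congr 1
        exact c4.symm
      rw [e, c5, map_mul, h1 h b hb, one_mul, map_pow, pow_mul]
  have h3 : Γ ≤ φ.ker.map Γ.subtype := by
    refine (Subgroup.closure_le _).2 ?_
    rintro _ ⟨i, j, h, a, ha, rfl⟩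
    obtain ⟨b, hb, e⟩ := h2 h (Nat.card A) Nat.card_pos.ne' a ha
    exact ⟨E h a ha, e.trans pow_card_eq_one', rfl⟩
  obtain ⟨g', hg', e⟩ := h3 g.2
  have : g' = g := Subtype.ext e
  rw [← this]
  exact hg'

lemma ex_entry (g : Γ) (hg : g ≠ 1) : ∃ i j, (g.1.1 - 1) i j ≠ 0 := by
  by_contra hc
  push Not at hc
  exact hg (Subtype.ext (Subtype.ext (sub_eq_zero.1 (Matrix.ext hc))))

end

theorem result : ∃ (G : Type) (_ : Group G), Nontrivial G ∧
    (∀ g : G, g ≠ 1 → ∃ (N : Subgroup G) (_ : N.Normal), g ∉ N ∧ Finite (G ⧸ N)) ∧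
    (∀ g : G, g ≠ 1 → ∃ (N : Subgroup G) (_ : N.Normal), g ∉ N ∧ Group.IsSolvable (G ⧸ N)) ∧
    ∀ (N : Subgroup G) (_ : N.Normal), Finite (G ⧸ N) → Group.IsSolvable (G ⧸ N) → N = ⊤ := by
  refine ⟨Γ, inferInstance, ⟨E (i := 0) (j := 1) (by decide) t (dvd_refl _), 1, fun h => ?_⟩,
    fun g hg => ?_, fun g hg => ?_, fun N _ _ _ => ?_⟩
  · have := congrArg (fun g : Γ => (g.1.1 0 1).1) h
    simp [E, transvection_coe, t] at this
  · obtain ⟨i, j, h⟩ := ex_entry g hg
    obtain ⟨p, n, hp⟩ := sep _ h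
    let f := (SpecialLinearGroup.map (n := Fin 3) ((PadicInt.toZModPow n).comp (evZ p))).comp
      Γ.subtype
    have : NeZero ((p : ℕ) ^ n) := ⟨pow_ne_zero _ p.2.ne_zero⟩
    refine ⟨f.ker, inferInstance, fun hk => hp ?_,
      Finite.of_injective _ (QuotientGroup.kerLift_injective f)⟩
    have h1 := congrArg (fun s : SpecialLinearGroup (Fin 3) (ZMod (p ^ n)) => s.1 i j)
      (MonoidHom.mem_ker.1 hk)
    rw [Matrix.sub_apply, map_sub, map_sub, sub_eq_zero]
    refine Eq.trans h1 ?_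
    rw [Matrix.SpecialLinearGroup.coe_one, Matrix.one_apply, Matrix.one_apply]
    split_ifs <;> simp
  · obtain ⟨i, j, h⟩ := ex_entry g hg
    have h' : ((g.1.1 - 1) i j).1 ≠ 0 := fun h0 => h (Subtype.ext h0)
    refine ⟨derivedSeries Γ ((g.1.1 - 1) i j).1.natDegree, derivedSeries_normal _ _, fun hk => ?_,
      ⟨⟨((g.1.1 - 1) i j).1.natDegree, ?_⟩⟩⟩
    · have h5 : g.1 ∈ K (((g.1.1 - 1) i j).1.natDegree + 1) := der_le _ hk
      have := natDegree_le_of_dvd (mem_K.1 h5 i j) h'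
      rw [natDegree_X_pow] at this
      omega
    · have := derivedSeries_normal Γ ((g.1.1 - 1) i j).1.natDegree
      rw [← map_derivedSeries_eq (QuotientGroup.mk'_surjective _), QuotientGroup.map_mk'_self]
  · by_contra hN
    have : Nontrivial (Γ ⧸ N) := QuotientGroup.nontrivial_iff.2 hN
    apply (Group.IsSolvable.commutator_lt_top_of_nontrivial (Γ ⧸ N)).ne
    rw [eq_top_iff]
    intro x _
    obtain ⟨g, rfl⟩ := QuotientGroup.mk'_surjective N x
    have := triv ((Abelianization.of (G := Γ ⧸ N)).comp (QuotientGroup.mk' N)) g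
    rw [← Abelianization.ker_of]
    exact this

end Pool.Agent.Results.MP_92b5af_al.Elem
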